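import Pool.Agent.Helper92.RK.Alg

/-!
# Read-k DNF formulas: the two halves of the sample
-/

set_option autoImplicit false

namespace Pool.Agent.Helper89.RK

open Finset
open Pool.Agent.Helper92
open Pool.Agent.Helper92.RK
open Pool.Agent.Helper92.AM (sample)

theorem take_aux {α : Type} (s : List α) (k j : ℕ) :
    ((s.zipIdx j).filter fun z => decide (z.2 < k)).map Prod.fst = s.take (k - j) := by
  induction s generalizing j with
  | nil => simp
  | cons a s ih =>
    rw [List.zipIdx_cons, List.filter_cons]
    by_cases h : j < k
    · obtain ⟨c, hc⟩ : ∃ c, k - j = c + 1 := ⟨k - j - 1, by omega⟩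
      have h2 : k - (j + 1) = c := by omega
      simp only [h, decide_true, if_true, List.map_cons, ih, hc, List.take_succ_cons, h2]
    · have h1 : k - j = 0 := by omega
      have h2 : k - (j + 1) = 0 := by omega
      simp only [h, decide_false, Bool.false_eq_true, if_false, ih, h1, h2, List.take_zero]

theorem drop_aux {α : Type} (s : List α) (k j : ℕ) :
    ((s.zipIdx j).filter fun z => decide (k ≤ z.2)).map Prod.fst = s.drop (k - j) := by
  induction s generalizing j with
  | nil => simp
  | cons a s ih =>
    rw [List.zipIdx_cons, List.filter_cons]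
    by_cases h : k ≤ j
    · have h1 : k - j = 0 := by omega
      have h2 : k - (j + 1) = 0 := by omega
      simp only [h, decide_true, if_true, List.map_cons, ih, h1, h2, List.drop_zero]
    · obtain ⟨c, hc⟩ : ∃ c, k - j = c + 1 := ⟨k - j - 1, by omega⟩
      have h2 : k - (j + 1) = c := by omega
      simp only [h, decide_false, Bool.false_eq_true, if_false, ih, hc, List.drop_succ_cons, h2]

theorem hlf : S_HLF := by
  intro n m f x
  constructor
  · unfold half1
    rw [take_aux, AM.sample_length, Nat.sub_zero]
    unfold sample
    refine List.ext_getElem ?_ fun i h1 h2 => ?_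
    · simp [Nat.div_le_self]
    · simp [fstH]
  · unfold half2
    rw [drop_aux, AM.sample_length, Nat.sub_zero]
    unfold sample
    refine List.ext_getElem ?_ fun i h1 h2 => ?_
    · simp
    · simp [sndH]

end Pool.Agent.Helper89.RK
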