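import Pool.Agent.Helper92.RK.Alg

/-!
# Read-k DNF formulas: the numerical estimates
-/

set_option autoImplicit false

namespace Pool.Agent.Helper89.RK

open Finset
open Pool.Agent.Helper92
open Pool.Agent.Helper92.RK

theorem size_aux {t : ℕ} (ht : 1 ≤ t) : 2 ^ Nat.size t ≤ 2 * t := by
  obtain ⟨c, hc⟩ : ∃ c, Nat.size t = c + 1 :=
    ⟨Nat.size t - 1, by have := Nat.size_pos.2 ht; omega⟩
  have h : 2 ^ c ≤ t := Nat.lt_size.1 (by omega)
  rw [hc, pow_succ]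
  omega

theorem num : S_NUM := by
  intro k e L0 r D u B q he hq
  refine ⟨(L0 + r + D + u) + 4 * e * (k + 1) + D + 2 * r + 192 * q ^ 2 + 3072 * e ^ 2 + 24 * e +
    2 * B + u + L0 + 30, ?_⟩
  intro n d t m hd ht hm
  set C := (L0 + r + D + u) + 4 * e * (k + 1) + D + 2 * r + 192 * q ^ 2 + 3072 * e ^ 2 + 24 * e +
    2 * B + u + L0 + 30 with hC
  set N := (n + 2) * d with hN
  have hNn : n + 2 ≤ N := Nat.le_mul_of_pos_right _ hd
  have hNd : d ≤ N := Nat.le_mul_of_pos_left _ (by omega)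
  have hN2 : 2 ≤ N := by omega
  have pN : ∀ a, a ≤ C → N ^ a ≤ t := fun a ha =>
    (Nat.pow_le_pow_right (by omega) ha).trans ht
  have hNt : N ≤ t := by simpa using pN 1 (by omega)
  have ht2 : 2 ≤ t := hN2.trans hNt
  have pt : ∀ a, a ≤ C → t ^ a ≤ m := fun a ha =>
    (Nat.pow_le_pow_right (by omega) ha).trans hm
  have cp : ∀ a : ℕ, a ≤ t ^ a := fun a => (Nat.lt_pow_self (by omega)).le
  have cN : ∀ a : ℕ, a ≤ N ^ a := fun a => (Nat.lt_pow_self (by omega)).le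
  have htm : t ^ 2 ≤ m := pt 2 (by omega)
  have h2t : 2 * t ≤ t ^ 2 := by nlinarith
  have hm2 : 1 ≤ m / 2 := by omega
  have hp4 : (n + 1) ^ (L0 + r + D + u) ≤ t :=
    (Nat.pow_le_pow_left (by omega) _).trans (pN _ (by omega))
  have hp5 : 4 * e * (k * n + 1) ≤ t := by
    have h1 : 4 * e * (k * n + 1) ≤ 4 * e * (k + 1) * N := by
      have : k * n + 1 ≤ (k + 1) * N := by nlinarith
      calc _ ≤ 4 * e * ((k + 1) * N) := Nat.mul_le_mul_left _ this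
        _ = _ := by ring
    have h2 : 4 * e * (k + 1) * N ≤ N ^ (4 * e * (k + 1)) * N := Nat.mul_le_mul_right _ (cN _)
    rw [← pow_succ] at h2
    exact (h1.trans h2).trans (pN _ (by omega))
  -- natural number versions
  have n6a : (n + 1) ^ D * (2 * n + 1) ^ r * (6 * d) ≤ t ^ (D + 2 * r + 4) := by
    have h1 : (n + 1) ^ D ≤ t ^ D := Nat.pow_le_pow_left (by omega) _
    have h2 : (2 * n + 1) ^ r ≤ (t ^ 2) ^ r := Nat.pow_le_pow_left (by omega) _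
    have h3 : 6 * d ≤ t ^ 4 := by
      have h4 : 2 ^ 3 ≤ t ^ 3 := Nat.pow_le_pow_left ht2 3
      have h5 : d ≤ t := hNd.trans hNt
      calc 6 * d ≤ 2 ^ 3 * t := by omega
        _ ≤ t ^ 3 * t := Nat.mul_le_mul_right _ h4
        _ = t ^ 4 := by ring
    calc _ ≤ t ^ D * (t ^ 2) ^ r * t ^ 4 := Nat.mul_le_mul (Nat.mul_le_mul h1 h2) h3
      _ = _ := by ring
  have n6b : t ^ (D + 2 * r + 4) * (64 * q ^ 2 * t ^ 2) ≤ m / 2 := by
    rw [Nat.le_div_iff_mul_le (by norm_num)]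
    calc _ = 128 * q ^ 2 * t ^ (D + 2 * r + 6) := by ring
      _ ≤ t ^ (128 * q ^ 2) * t ^ (D + 2 * r + 6) := Nat.mul_le_mul_right _ (cp _)
      _ = t ^ (128 * q ^ 2 + (D + 2 * r + 6)) := by rw [← pow_add]
      _ ≤ m := pt _ (by omega)
  have n7 : 6 * d * (256 * e ^ 2) ≤ m - m / 2 := by
    have h1 : 2 * (6 * d * (256 * e ^ 2)) ≤ m := by
      calc _ = 3072 * e ^ 2 * d := by ring
        _ ≤ t ^ (3072 * e ^ 2) * t := Nat.mul_le_mul (cp _) (hNd.trans hNt)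
        _ = t ^ (3072 * e ^ 2 + 1) := by rw [← pow_succ]
        _ ≤ m := pt _ (by omega)
    omega
  have n8 : 4 * e * ((2 * t + 2) ^ 6 * 2 ^ (B * Nat.size t + u + L0)) * (3 * d) ≤ m - m / 2 := by
    have h1 : 2 ^ (B * Nat.size t + u + L0) ≤ t ^ (2 * B + u + L0) := by
      have h2 : 2 ^ (B * Nat.size t) ≤ t ^ (2 * B) := by
        calc 2 ^ (B * Nat.size t) = (2 ^ Nat.size t) ^ B := by rw [← pow_mul, mul_comm]
          _ ≤ (t ^ 2) ^ B := Nat.pow_le_pow_left ((size_aux (by omega)).trans h2t) _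
          _ = t ^ (2 * B) := by rw [← pow_mul]
      calc _ = 2 ^ (B * Nat.size t) * 2 ^ u * 2 ^ L0 := by rw [pow_add, pow_add]
        _ ≤ t ^ (2 * B) * t ^ u * t ^ L0 := Nat.mul_le_mul (Nat.mul_le_mul h2
          (Nat.pow_le_pow_left ht2 _)) (Nat.pow_le_pow_left ht2 _)
        _ = _ := by rw [pow_add, pow_add]
    have h3 : (2 * t + 2) ^ 6 ≤ (t ^ 3) ^ 6 := Nat.pow_le_pow_left (by
      have : t ^ 2 * 2 ≤ t ^ 2 * t := Nat.mul_le_mul_left _ ht2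
      calc 2 * t + 2 ≤ t ^ 2 * 2 := by omega
        _ ≤ t ^ 2 * t := this
        _ = t ^ 3 := by ring) _
    have h4 : 2 * (4 * e * ((2 * t + 2) ^ 6 * 2 ^ (B * Nat.size t + u + L0)) * (3 * d)) ≤ m := by
      calc _ = (24 * e) * ((2 * t + 2) ^ 6 * 2 ^ (B * Nat.size t + u + L0)) * d := by ring
        _ ≤ t ^ (24 * e) * ((t ^ 3) ^ 6 * t ^ (2 * B + u + L0)) * t :=
          Nat.mul_le_mul (Nat.mul_le_mul (cp _) (Nat.mul_le_mul h3 h1)) (hNd.trans hNt)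
        _ = t ^ (24 * e + (18 + (2 * B + u + L0)) + 1) := by rw [← pow_mul]; ring
        _ ≤ m := pt _ (by omega)
    omega
  -- real number versions
  have hdR : (1 : ℝ) ≤ d := by exact_mod_cast hd
  have htR : (0 : ℝ) < t := by exact_mod_cast (show 0 < t by omega)
  have hqR : (0 : ℝ) < q := by exact_mod_cast hq
  have heR : (0 : ℝ) < e := by exact_mod_cast he
  have key : ∀ (A X : ℝ), A * (3 * d) ≤ X → A * Real.exp (-X) ≤ 1 / (3 * d) := by
    intro A X h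
    rw [le_div_iff₀ (by positivity)]
    have h1 : X ≤ Real.exp X := by linarith [Real.add_one_le_exp X]
    calc A * Real.exp (-X) * (3 * d) = (A * (3 * d)) * Real.exp (-X) := by ring
      _ ≤ Real.exp X * Real.exp (-X) :=
        mul_le_mul_of_nonneg_right (h.trans h1) (Real.exp_pos _).le
      _ = 1 := by rw [← Real.exp_add, add_neg_cancel, Real.exp_zero]
  refine ⟨by omega, by omega, hm2, hp4, hp5, ?_, ?_, ?_⟩
  · have h1 : ((n + 1 : ℝ) ^ D * (2 * n + 1 : ℝ) ^ r * 2) * (3 * d) ≤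
        ((m / 2 : ℕ) : ℝ) * (1 / (4 * q * t : ℝ)) ^ 2 / 4 := by
      have h2 : ((n + 1 : ℝ) ^ D * (2 * n + 1 : ℝ) ^ r * (6 * d)) ≤ t ^ (D + 2 * r + 4) := by
        exact_mod_cast n6a
      have h3 : ((t : ℝ) ^ (D + 2 * r + 4) * (64 * q ^ 2 * t ^ 2)) ≤ ((m / 2 : ℕ) : ℝ) := by
        exact_mod_cast n6b
      have h4 : (t : ℝ) ^ (D + 2 * r + 4) ≤ ((m / 2 : ℕ) : ℝ) * (1 / (4 * q * t : ℝ)) ^ 2 / 4 := by
        have : ((m / 2 : ℕ) : ℝ) * (1 / (4 * q * t : ℝ)) ^ 2 / 4 =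
            ((m / 2 : ℕ) : ℝ) / (64 * q ^ 2 * t ^ 2) := by
          field_simp
          ring
        rw [this, le_div_iff₀ (by positivity)]
        exact h3
      calc _ = (n + 1 : ℝ) ^ D * (2 * n + 1 : ℝ) ^ r * (6 * d) := by ring
        _ ≤ _ := h2.trans h4
    have h5 := key _ _ h1
    calc _ = ((n + 1 : ℝ) ^ D * (2 * n + 1 : ℝ) ^ r * 2) *
        Real.exp (-(((m / 2 : ℕ) : ℝ) * (1 / (4 * q * t : ℝ)) ^ 2 / 4)) := by ring
      _ ≤ _ := h5
  · refine key 2 _ ?_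
    have h1 : (6 * (d : ℝ) * (256 * e ^ 2)) ≤ ((m - m / 2 : ℕ) : ℝ) := by exact_mod_cast n7
    have h2 : ((m - m / 2 : ℕ) : ℝ) * (1 / (8 * e : ℝ)) ^ 2 / 4 =
        ((m - m / 2 : ℕ) : ℝ) / (256 * e ^ 2) := by
      field_simp
      ring
    rw [h2, le_div_iff₀ (by positivity)]
    linarith
  · have h1 : (4 * (e : ℝ) * ((2 * t + 2) ^ 6 * 2 ^ (B * Nat.size t + u + L0)) * (3 * d)) ≤
        ((m - m / 2 : ℕ) : ℝ) := by exact_mod_cast n8
    have h2 : (0 : ℝ) < ((m - m / 2 : ℕ) : ℝ) := by exact_mod_cast (show 0 < m - m / 2 by omega)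
    rw [le_div_iff₀ (by positivity)]
    calc 4 * (e : ℝ) * ((2 * t + 2 : ℝ) ^ 6 * 2 ^ (B * Nat.size t + u + L0) /
          ((m - m / 2 : ℕ) : ℝ)) * (3 * d) =
        (4 * (e : ℝ) * ((2 * t + 2) ^ 6 * 2 ^ (B * Nat.size t + u + L0)) * (3 * d)) /
          ((m - m / 2 : ℕ) : ℝ) := by ring
      _ ≤ 1 := (div_le_one h2).2 h1

end Pool.Agent.Helper89.RK
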